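import Mathlib

set_option autoImplicit false

open Filter Topology Set

namespace Pool.Agent.Results.MP_aae45c_an.ModularNotRegular

/-- The modular `rho_p(a) = sum_j |a_j|^{p_j}`, with values in `[0, infinity]`. -/
noncomputable def modular (p : ℕ → ℝ) (a : ℕ → ℝ) : ENNReal :=
  ∑' j, ENNReal.ofReal (|a j| ^ p j)

/-- The space `ell^{(p_n)}`: real sequences `a` with `rho_p(t a) < infinity` for some `t > 0`. -/
def VarEll (p : ℕ → ℝ) : Type :=
  {a : ℕ → ℝ // ∃ t : ℝ, 0 < t ∧ modular p (fun j => t * a j) < ⊤}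

/-- `rho`-convergence: `u k` converges to `x` when `rho_p(u k - x)` tends to `0`. -/
def ModTendsto (p : ℕ → ℝ) (u : ℕ → VarEll p) (x : VarEll p) : Prop :=
  Tendsto (fun k => modular p (fun j => (u k).1 j - x.1 j)) atTop (𝓝 0)

/-- `rho`-closed sets: sets containing every `rho`-limit of a sequence of their elements. -/
def ModClosed (p : ℕ → ℝ) (F : Set (VarEll p)) : Prop :=
  ∀ (u : ℕ → VarEll p) (x : VarEll p), (∀ k, u k ∈ F) → ModTendsto p u x → x ∈ F

/-- The modular topology: its closed sets are exactly the `rho`-closed sets. -/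
@[reducible] def modularTopology (p : ℕ → ℝ) : TopologicalSpace (VarEll p) :=
  TopologicalSpace.ofClosed {F | ModClosed p F}
    (fun u _ hu _ => (hu 0).elim)
    (fun A hA u x hu hx F hF => hA hF u x (fun k => hu k F hF) hx)
    (fun A hA B hB u x hu hx => by
      by_cases h : ∃ᶠ k in atTop, u k ∈ A
      · obtain ⟨φ, hφ, hφA⟩ := extraction_of_frequently_atTop h
        exact Or.inl (hA (u ∘ φ) x hφA (hx.comp hφ.tendsto_atTop))
      · have h2 : ∃ᶠ k in atTop, u k ∈ B := by
          rw [not_frequently] at h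
          exact (h.mono fun k hk => (hu k).resolve_left hk).frequently
        obtain ⟨φ, hφ, hφB⟩ := extraction_of_frequently_atTop h2
        exact Or.inr (hB (u ∘ φ) x hφB (hx.comp hφ.tendsto_atTop)))

/-! ### Sequences supported on a sparse set of coordinates -/

/-- Place the sequence `y` on the coordinates `φ 0, φ 1, ...` and `0` elsewhere. -/
noncomputable def place (φ : ℕ → ℕ) (y : ℕ → ℝ) : ℕ → ℝ := Function.extend φ y 0

theorem place_apply {φ : ℕ → ℕ} (hφ : Function.Injective φ) (y : ℕ → ℝ) (k : ℕ) :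
    place φ y (φ k) = y k := hφ.extend_apply y 0 k

theorem place_apply' {φ : ℕ → ℕ} (y : ℕ → ℝ) (j : ℕ) (hj : ¬ ∃ k, φ k = j) :
    place φ y j = 0 := by
  unfold place
  rw [Function.extend_apply' _ _ _ hj]
  rfl

theorem place_sub {φ : ℕ → ℕ} (hφ : Function.Injective φ) (y z : ℕ → ℝ) :
    (fun j => place φ y j - place φ z j) = place φ (fun k => y k - z k) := by
  funext j
  by_cases hj : ∃ k, φ k = j
  · obtain ⟨k, rfl⟩ := hj
    simp only [place_apply hφ]
  · simp only [place_apply' _ j hj, sub_zero]

theorem place_mul {φ : ℕ → ℕ} (hφ : Function.Injective φ) (t : ℝ) (y : ℕ → ℝ) :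
    (fun j => t * place φ y j) = place φ (fun k => t * y k) := by
  funext j
  by_cases hj : ∃ k, φ k = j
  · obtain ⟨k, rfl⟩ := hj
    simp only [place_apply hφ]
  · simp only [place_apply' _ j hj, mul_zero]

theorem modular_place {p : ℕ → ℝ} (hp : ∀ n, 1 ≤ p n) {φ : ℕ → ℕ}
    (hφ : Function.Injective φ) (y : ℕ → ℝ) :
    modular p (place φ y) = ∑' k, ENNReal.ofReal (|y k| ^ p (φ k)) := by
  unfold modular
  rw [← hφ.tsum_eq]
  · simp only [place_apply hφ]
  · intro j hj
    by_contra hcon
    apply hj
    have h1 : ¬ ∃ k, φ k = j := fun ⟨k, hk⟩ => hcon ⟨k, hk⟩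
    show ENNReal.ofReal (|place φ y j| ^ p j) = 0
    rw [place_apply' _ j h1, abs_zero, Real.zero_rpow (by linarith [hp j])]
    simp

/-- The comparison sequence `w_k = (k+1)/(k+2)`. -/
noncomputable def w (k : ℕ) : ℝ := ((k : ℝ) + 1) / ((k : ℝ) + 2)

theorem w_pos (k : ℕ) : 0 < w k := by unfold w; positivity

theorem w_lt_one (k : ℕ) : w k < 1 := by
  unfold w
  rw [div_lt_one (by positivity)]
  linarith

theorem half_le_w (k : ℕ) : 1 / 2 ≤ w k := by
  unfold w
  rw [div_le_div_iff₀ (by norm_num) (by positivity)]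
  have : (0 : ℝ) ≤ k := Nat.cast_nonneg k
  linarith

theorem one_sub_w (k : ℕ) : 1 - w k = 1 / ((k : ℝ) + 2) := by
  unfold w
  have : ((k : ℝ) + 2) ≠ 0 := by positivity
  field_simp
  ring

theorem exists_sparse {p : ℕ → ℝ} (hunb : ¬ BddAbove (range p)) :
    ∃ φ : ℕ → ℕ, StrictMono φ ∧ ∀ k, w k ^ p (φ k) ≤ (1 / 2 : ℝ) ^ (k + 1) := by
  refine extraction_forall_of_frequently
    (P := fun k n => w k ^ p n ≤ (1 / 2 : ℝ) ^ (k + 1)) fun k => ?_
  have h1 : ∀ R : ℝ, ∃ᶠ n in atTop, R < p n := by
    intro R
    by_contra hcon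
    rw [not_frequently] at hcon
    apply hunb
    apply IsBoundedUnder.bddAbove_range
    exact ⟨R, by simpa using hcon⟩
  have h2 : Tendsto (fun x : ℝ => w k ^ x) atTop (𝓝 0) :=
    tendsto_rpow_atTop_of_base_lt_one _ (by linarith [w_pos k]) (w_lt_one k)
  have h3 : ∀ᶠ x : ℝ in atTop, w k ^ x < (1 / 2 : ℝ) ^ (k + 1) :=
    h2.eventually (gt_mem_nhds (by positivity))
  obtain ⟨R, hR⟩ := eventually_atTop.1 h3
  exact (h1 R).mono fun n hn => (hR (p n) hn.le).le

section sparse

variable {p : ℕ → ℝ} (hp : ∀ n, 1 ≤ p n) {φ : ℕ → ℕ} (hφ : Function.Injective φ)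
  (hw : ∀ k, w k ^ p (φ k) ≤ (1 / 2 : ℝ) ^ (k + 1))

theorem tsum_half : ∑' k : ℕ, ENNReal.ofReal ((1 / 2 : ℝ) ^ (k + 1)) = 1 := by
  have h := hasSum_geometric_two
  have h2 : HasSum (fun k : ℕ => (1 / 2 : ℝ) ^ (k + 1)) 1 := by
    have := h.mul_left (1 / 2 : ℝ)
    simpa [pow_succ, mul_comm] using this
  rw [← ENNReal.ofReal_tsum_of_nonneg (fun k => by positivity) h2.summable, h2.tsum_eq]
  simp

include hp hφ hw in
theorem modular_small {y : ℕ → ℝ} {r : ℝ} (hr : r ≤ 1 / 2) (hy : ∀ k, |y k| ≤ r) :
    modular p (place φ y) ≤ ENNReal.ofReal (2 * r) := by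
  have hr0 : 0 ≤ r := le_trans (abs_nonneg _) (hy 0)
  rw [modular_place hp hφ]
  calc ∑' k, ENNReal.ofReal (|y k| ^ p (φ k))
      ≤ ∑' k, ENNReal.ofReal (2 * r) * ENNReal.ofReal ((1 / 2 : ℝ) ^ (k + 1)) := by
        apply ENNReal.tsum_le_tsum
        intro k
        rw [← ENNReal.ofReal_mul (by positivity)]
        apply ENNReal.ofReal_le_ofReal
        have hq : 1 ≤ p (φ k) := hp _
        calc |y k| ^ p (φ k) ≤ r ^ p (φ k) :=
              Real.rpow_le_rpow (abs_nonneg _) (hy k) (by linarith)
          _ = (2 * r) ^ p (φ k) * (1 / 2) ^ p (φ k) := by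
              rw [← Real.mul_rpow (by positivity) (by norm_num)]
              congr 1
              ring
          _ ≤ (2 * r) ^ (1 : ℝ) * (w k) ^ p (φ k) := by
              apply mul_le_mul
              · rcases hr0.eq_or_lt with h0 | h0
                · rw [← h0]
                  simp only [mul_zero]
                  rw [Real.zero_rpow (by linarith), Real.zero_rpow (by norm_num)]
                · exact Real.rpow_le_rpow_of_exponent_ge (by positivity) (by linarith) hq
              · exact Real.rpow_le_rpow (by norm_num) (half_le_w k) (by linarith)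
              · positivity
              · positivity
          _ ≤ 2 * r * (1 / 2) ^ (k + 1) := by
              rw [Real.rpow_one]
              exact mul_le_mul_of_nonneg_left (hw k) (by positivity)
    _ = ENNReal.ofReal (2 * r) := by
        rw [ENNReal.tsum_mul_left, tsum_half, mul_one]

include hp hφ hw in
theorem modular_tail {u : ℕ → ℝ} {K : ℕ} (h0 : ∀ k < K, u k = 0) (hu : ∀ k, |u k| ≤ w k) :
    modular p (place φ u) ≤ ENNReal.ofReal ((1 / 2 : ℝ) ^ K) := by
  rw [modular_place hp hφ]
  have h1 : ∀ k, ENNReal.ofReal (|u k| ^ p (φ k)) ≤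
      if K ≤ k then ENNReal.ofReal ((1 / 2 : ℝ) ^ (k + 1)) else 0 := by
    intro k
    have hq : 1 ≤ p (φ k) := hp _
    split_ifs with h
    · apply ENNReal.ofReal_le_ofReal
      exact (Real.rpow_le_rpow (abs_nonneg _) (hu k) (by linarith)).trans (hw k)
    · rw [h0 k (not_le.1 h), abs_zero, Real.zero_rpow (by linarith)]
      simp
  refine (ENNReal.tsum_le_tsum h1).trans ?_
  have h2 : ∑' k, (if K ≤ k then ENNReal.ofReal ((1 / 2 : ℝ) ^ (k + 1)) else 0) =
      ∑' k, ENNReal.ofReal ((1 / 2 : ℝ) ^ K) * ENNReal.ofReal ((1 / 2 : ℝ) ^ (k + 1)) := by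
    have hinj : Function.Injective (fun k : ℕ => k + K) := add_left_injective K
    rw [← hinj.tsum_eq]
    · apply tsum_congr
      intro k
      rw [if_pos (Nat.le_add_left K k), ← ENNReal.ofReal_mul (by positivity)]
      congr 1
      rw [← pow_add]
      congr 1
      ring
    · intro k hk
      by_contra hcon
      apply hk
      have : ¬ K ≤ k := fun h => hcon ⟨k - K, by simp [h]⟩
      show (if K ≤ k then ENNReal.ofReal ((1 / 2 : ℝ) ^ (k + 1)) else 0) = 0
      rw [if_neg this]
  rw [h2, ENNReal.tsum_mul_left, tsum_half, mul_one]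

include hp hφ hw in
theorem mem_of_bounded {y : ℕ → ℝ} {C : ℝ} (hy : ∀ k, |y k| ≤ C) :
    ∃ t : ℝ, 0 < t ∧ modular p (fun j => t * place φ y j) < ⊤ := by
  have hC : 0 ≤ C := le_trans (abs_nonneg _) (hy 0)
  refine ⟨1 / (2 * (C + 1)), by positivity, ?_⟩
  rw [place_mul hφ]
  have : ∀ k, |1 / (2 * (C + 1)) * y k| ≤ 1 / 2 := by
    intro k
    rw [abs_mul, abs_of_pos (by positivity : (0 : ℝ) < 1 / (2 * (C + 1)))]
    calc 1 / (2 * (C + 1)) * |y k| ≤ 1 / (2 * (C + 1)) * (C + 1) := by
          apply mul_le_mul_of_nonneg_left _ (by positivity)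
          linarith [hy k]
      _ = 1 / 2 := by field_simp
  exact lt_of_le_of_lt (modular_small hp hφ hw le_rfl this) ENNReal.ofReal_lt_top

end sparse

/-! ### The closed set -/

/-- Sign patterns: the `i`-th binary digit of `k`, read as a sign. -/
def sgn (i k : ℕ) : ℝ := if Nat.testBit k i then 1 else -1

theorem abs_sgn (i k : ℕ) : |sgn i k| = 1 := by
  unfold sgn
  split_ifs <;> simp

theorem sgn_differ {i j : ℕ} (hij : i ≠ j) (N : ℕ) :
    ∃ k, N ≤ k ∧ sgn i k = 1 ∧ sgn j k = -1 := by
  refine ⟨2 ^ i + 2 ^ (i + j + N + 1), ?_, ?_, ?_⟩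
  · have : N < 2 ^ N := Nat.lt_two_pow_self
    have h2 : 2 ^ N ≤ 2 ^ (i + j + N + 1) := Nat.pow_le_pow_right (by norm_num) (by omega)
    exact (this.le.trans h2).trans (Nat.le_add_left _ _)
  · unfold sgn
    rw [if_pos]
    rw [Nat.add_comm, Nat.testBit_two_pow_add_gt (by omega)]
    exact Nat.testBit_two_pow_self
  · unfold sgn
    rw [if_neg]
    rw [Nat.add_comm]
    have h : j < i + j + N + 1 := by omega
    rw [Nat.testBit_two_pow_add_gt h, Nat.testBit_two_pow_of_ne hij]
    simp

/-- The points of the closed set: a finite rational list followed by a sign pattern. -/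
noncomputable def pt (l : List ℚ) (k : ℕ) : ℝ :=
  if h : k < l.length then ((l[k] : ℚ) : ℝ) else sgn (Encodable.encode l) k

theorem pt_of_le {l : List ℚ} {k : ℕ} (h : l.length ≤ k) :
    pt l k = sgn (Encodable.encode l) k := by
  unfold pt
  rw [dif_neg (not_lt.2 h)]

theorem pt_bounded (l : List ℚ) : ∃ C : ℝ, ∀ k, |pt l k| ≤ C := by
  refine ⟨1 + ∑ i ∈ Finset.range l.length, |pt l i|, fun k => ?_⟩
  have h0 : 0 ≤ ∑ i ∈ Finset.range l.length, |pt l i| :=
    Finset.sum_nonneg fun _ _ => abs_nonneg _
  by_cases h : k < l.length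
  · have := Finset.single_le_sum (f := fun i => |pt l i|) (fun i _ => abs_nonneg _)
      (Finset.mem_range.2 h)
    linarith
  · rw [pt_of_le (not_lt.1 h), abs_sgn]
    linarith

theorem open_ball {p : ℕ → ℝ} {U : Set (VarEll p)} (hU : IsOpen[modularTopology p] U)
    {x : VarEll p} (hx : x ∈ U) :
    ∃ n : ℕ, ∀ v : VarEll p,
      modular p (fun j => v.1 j - x.1 j) < ENNReal.ofReal (1 / ((n : ℝ) + 1)) → v ∈ U := by
  by_contra hcon
  push Not at hcon
  choose v hv hvU using hcon
  have hcl : ModClosed p Uᶜ := hU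
  refine hcl v x hvU ?_ hx
  unfold ModTendsto
  have h1 : Tendsto (fun n : ℕ => ENNReal.ofReal (1 / ((n : ℝ) + 1))) atTop (𝓝 0) := by
    have := ENNReal.tendsto_ofReal (tendsto_one_div_add_atTop_nhds_zero_nat (𝕜 := ℝ))
    simpa using this
  exact tendsto_of_tendsto_of_tendsto_of_le_of_le tendsto_const_nhds h1 (fun _ => bot_le)
    fun n => (hv n).le

theorem le_modular {p : ℕ → ℝ} (hp : ∀ n, 1 ≤ p n) {a : ℕ → ℝ} {j : ℕ} (h : 1 ≤ |a j|) :
    1 ≤ modular p a := by
  have h1 : ENNReal.ofReal (|a j| ^ p j) ≤ modular p a := ENNReal.le_tsum j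
  refine le_trans ?_ h1
  rw [ENNReal.one_le_ofReal]
  exact Real.one_le_rpow h (by linarith [hp j])

theorem result (p : ℕ → ℝ) (hp : ∀ n, 1 ≤ p n) (hunb : ¬ BddAbove (Set.range p)) :
    ∃ (x : VarEll p) (F : Set (VarEll p)), IsClosed[modularTopology p] F ∧ x ∉ F ∧
      ∀ U V : Set (VarEll p), IsOpen[modularTopology p] U → IsOpen[modularTopology p] V →
        x ∈ U → F ⊆ V → (U ∩ V).Nonempty := by
  obtain ⟨φ, hφm, hw⟩ := exists_sparse hunb
  have hφ := hφm.injective
  -- elements of the space from bounded sequences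
  have mk : ∀ y : ℕ → ℝ, (∃ C : ℝ, ∀ k, |y k| ≤ C) →
      ∃ t : ℝ, 0 < t ∧ modular p (fun j => t * place φ y j) < ⊤ :=
    fun y ⟨C, hC⟩ => mem_of_bounded hp hφ hw hC
  let F : Set (VarEll p) := {a | ∃ l : List ℚ, a.1 = place φ (pt l)}
  have hzero : place φ (fun _ => (0 : ℝ)) = fun _ => 0 := by
    funext j
    by_cases hj : ∃ k, φ k = j
    · obtain ⟨k, rfl⟩ := hj
      exact place_apply hφ _ _
    · exact place_apply' _ j hj
  let x0 : VarEll p := ⟨place φ (fun _ => (0 : ℝ)), mk _ ⟨0, fun k => by simp⟩⟩
  refine ⟨x0, F, ?_, ?_, ?_⟩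
  · -- F is closed
    have hF : ModClosed p F := by
      intro u x hu hx
      have h1 : ∀ᶠ k in atTop, modular p (fun j => (u k).1 j - x.1 j) < 1 / 2 :=
        hx.eventually (gt_mem_nhds (by norm_num))
      obtain ⟨k0, hk0⟩ := eventually_atTop.1 h1
      obtain ⟨l0, hl0⟩ := hu k0
      have hconst : ∀ k ≥ k0, (u k).1 = place φ (pt l0) := by
        intro k hk
        obtain ⟨l, hl⟩ := hu k
        by_cases hll : l = l0
        · rw [hl, hll]
        · exfalso
          have henc : Encodable.encode l ≠ Encodable.encode l0 :=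
            fun h => hll (Encodable.encode_injective h)
          obtain ⟨m, hm, hm1, hm2⟩ := sgn_differ henc (max l.length l0.length)
          have ha : (u k).1 (φ m) = 1 := by
            rw [hl, place_apply hφ, pt_of_le (le_trans (le_max_left _ _) hm), hm1]
          have hb : (u k0).1 (φ m) = -1 := by
            rw [hl0, place_apply hφ, pt_of_le (le_trans (le_max_right _ _) hm), hm2]
          have hcase : 1 ≤ |(u k).1 (φ m) - x.1 (φ m)| ∨ 1 ≤ |(u k0).1 (φ m) - x.1 (φ m)| := by
            rw [ha, hb]
            by_cases h0 : x.1 (φ m) ≤ 0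
            · left
              rw [le_abs]
              left
              linarith
            · right
              rw [le_abs]
              right
              linarith
          rcases hcase with h | h
          · have h2 := le_modular hp (a := fun j => (u k).1 j - x.1 j) h
            have h3 := lt_of_le_of_lt h2 (hk0 k hk)
            exact absurd h3 (by simp)
          · have h2 := le_modular hp (a := fun j => (u k0).1 j - x.1 j) h
            have h3 := lt_of_le_of_lt h2 (hk0 k0 le_rfl)
            exact absurd h3 (by simp)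
      have h4 : Tendsto (fun _ : ℕ => modular p (fun j => place φ (pt l0) j - x.1 j)) atTop
          (𝓝 0) := by
        refine Tendsto.congr' ?_ hx
        filter_upwards [eventually_ge_atTop k0] with k hk
        rw [hconst k hk]
      have h5 : modular p (fun j => place φ (pt l0) j - x.1 j) = 0 :=
        tendsto_nhds_unique tendsto_const_nhds h4
      refine ⟨l0, ?_⟩
      funext j
      have h6 := (ENNReal.tsum_eq_zero.1 h5) j
      rw [ENNReal.ofReal_eq_zero] at h6
      by_contra hne
      have h7 : 0 < |place φ (pt l0) j - x.1 j| := abs_pos.2 (sub_ne_zero.2 (Ne.symm hne))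
      exact absurd h6 (not_le.2 (Real.rpow_pos_of_pos h7 _))
    let _ := modularTopology p
    rw [← isOpen_compl_iff]
    show ModClosed p Fᶜᶜ
    rwa [compl_compl]
  · -- the point is not in F
    rintro ⟨l, hl⟩
    have h1 := congrFun hl (φ l.length)
    simp only [x0, place_apply hφ] at h1
    rw [pt_of_le le_rfl] at h1
    have h2 := abs_sgn (Encodable.encode l) l.length
    rw [← h1] at h2
    simp at h2
  · intro U V hU hV hxU hFV
    obtain ⟨n0, hn0⟩ := open_ball hU hxU
    -- the radius
    obtain ⟨r, hr⟩ : ∃ r : ℝ, r = 1 / (4 * ((n0 : ℝ) + 1)) := ⟨_, rfl⟩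
    have hr0 : 0 < r := by rw [hr]; positivity
    have hr2 : r ≤ 1 / 2 := by
      rw [hr, div_le_div_iff₀ (by positivity) (by norm_num)]
      have : (0 : ℝ) ≤ n0 := Nat.cast_nonneg _
      linarith
    have habs : ∀ (y : ZeroAtInftyContinuousMap ℕ ℝ) (k : ℕ), |y k| ≤ ‖y‖ := by
      intro y k
      rw [← ZeroAtInftyContinuousMap.norm_toBCF_eq_norm]
      exact y.toBCF.norm_coe_le_norm k
    have hdist : ∀ (y z : ZeroAtInftyContinuousMap ℕ ℝ) (k : ℕ), |y k - z k| ≤ dist y z := by
      intro y z k
      rw [dist_eq_norm]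
      exact habs (y - z) k
    let Y : ℕ → Set (ZeroAtInftyContinuousMap ℕ ℝ) := fun n =>
      {y | ‖y‖ < r ∧ ∀ v : VarEll p,
        modular p (fun j => v.1 j - place φ y j) < ENNReal.ofReal (1 / ((n : ℝ) + 1)) → v ∈ U}
    let f : ℕ → Set (ZeroAtInftyContinuousMap ℕ ℝ) := fun n =>
      Nat.casesOn n {y | r ≤ ‖y‖} (fun m => closure (Y m))
    have hf : ∀ n, IsClosed (f n) := by
      intro n
      cases n with
      | zero => exact isClosed_le continuous_const continuous_norm
      | succ m => exact isClosed_closure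
    have hcov : ⋃ n, f n = univ := by
      rw [eq_univ_iff_forall]
      intro y
      rw [mem_iUnion]
      by_cases hy : r ≤ ‖y‖
      · exact ⟨0, hy⟩
      · rw [not_le] at hy
        have hyb : ∃ C : ℝ, ∀ k, |y k| ≤ C := ⟨_, habs y⟩
        have hyU : (⟨place φ y, mk _ hyb⟩ : VarEll p) ∈ U := by
          apply hn0
          show modular p (fun j => place φ y j - place φ (fun _ => (0 : ℝ)) j) < _
          rw [place_sub hφ]
          refine lt_of_le_of_lt (modular_small hp hφ hw (r := ‖y‖) (hy.le.trans hr2) ?_) ?_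
          · intro k
            rw [sub_zero]
            exact habs y k
          · apply (ENNReal.ofReal_lt_ofReal_iff (by positivity)).2
            calc 2 * ‖y‖ < 2 * r := by linarith
              _ ≤ 1 / ((n0 : ℝ) + 1) := by
                rw [hr]
                have : (0 : ℝ) ≤ n0 := Nat.cast_nonneg _
                rw [mul_one_div, div_le_div_iff₀ (by positivity) (by positivity)]
                linarith
        obtain ⟨n, hn⟩ := open_ball hU hyU
        exact ⟨n + 1, subset_closure ⟨hy, hn⟩⟩
    have hdense := dense_iUnion_interior_of_closed hf hcov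
    obtain ⟨y0, hy0, hy0r⟩ := hdense.exists_mem_open
      (Metric.isOpen_ball (x := (0 : ZeroAtInftyContinuousMap ℕ ℝ)) (ε := r))
      ⟨0, Metric.mem_ball_self hr0⟩
    rw [mem_iUnion] at hy0
    obtain ⟨i, hi⟩ := hy0
    rw [mem_ball_zero_iff] at hy0r
    cases i with
    | zero => exact absurd (interior_subset hi) (not_le.2 hy0r)
    | succ n =>
      obtain ⟨s, hs, hsub⟩ := Metric.isOpen_iff.1 isOpen_interior y0 hi
      have hsub' : Metric.ball y0 s ⊆ closure (Y n) := hsub.trans interior_subset
      -- choose the length of the list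
      have hy0t : Tendsto (fun k => y0 k) atTop (𝓝 0) := by
        have := y0.zero_at_infty'
        rw [cocompact_eq_cofinite, Nat.cofinite_eq_atTop] at this
        exact this
      have e1 : ∀ᶠ K : ℕ in atTop, ∀ k ≥ K, |y0 k| ≤ s / 4 := by
        have h1 : ∀ᶠ k : ℕ in atTop, |y0 k| < s / 4 := by
          have := hy0t.abs
          rw [abs_zero] at this
          exact this.eventually (gt_mem_nhds (by positivity))
        obtain ⟨K, hK⟩ := eventually_atTop.1 h1
        exact eventually_atTop.2 ⟨K, fun K' hK' k hk => (hK k (hK'.trans hk)).le⟩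
      have e2 : ∀ᶠ K : ℕ in atTop, 1 / ((K : ℝ) + 1) < s / 4 :=
        (tendsto_one_div_add_atTop_nhds_zero_nat (𝕜 := ℝ)).eventually
          (gt_mem_nhds (by positivity))
      have e3 : ∀ᶠ K : ℕ in atTop, (1 / 2 : ℝ) ^ K < 1 / ((n : ℝ) + 1) :=
        (tendsto_pow_atTop_nhds_zero_of_lt_one (by norm_num) (by norm_num)).eventually
          (gt_mem_nhds (by positivity))
      obtain ⟨K, hK1, hK2, hK3⟩ := (e1.and (e2.and e3)).exists
      have hq : ∀ k : ℕ, ∃ q : ℚ, |(q : ℝ) - y0 k| < s / 4 := by
        intro k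
        obtain ⟨q, hq1, hq2⟩ := exists_rat_btwn
          (show y0 k - s / 4 < y0 k + s / 4 by linarith)
        exact ⟨q, by rw [abs_lt]; constructor <;> linarith⟩
      choose q hq using hq
      obtain ⟨l, hl⟩ : ∃ l : List ℚ, l = List.ofFn (fun i : Fin K => q i) := ⟨_, rfl⟩
      have hlen : l.length = K := by rw [hl, List.length_ofFn]
      have hpt1 : ∀ k < K, pt l k = q k := by
        intro k hk
        unfold pt
        rw [dif_pos (by rw [hlen]; exact hk)]
        congr 1
        simp [hl]
      have hpt2 : ∀ k, K ≤ k → pt l k = sgn (Encodable.encode l) k :=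
        fun k hk => pt_of_le (by rw [hlen]; exact hk)
      -- the small part
      obtain ⟨g, hg⟩ : ∃ g : ℕ → ℝ, g = fun k =>
          if k < K then pt l k else pt l k * (1 / ((k : ℝ) + 2)) := ⟨_, rfl⟩
      have hgt : Tendsto g atTop (𝓝 0) := by
        have h1 : Tendsto (fun k : ℕ => 1 / ((k : ℝ) + 2)) atTop (𝓝 0) := by
          have := (tendsto_one_div_add_atTop_nhds_zero_nat (𝕜 := ℝ)).comp
            (tendsto_add_atTop_nat 1)
          refine this.congr fun k => ?_
          simp only [Function.comp_apply, Nat.cast_add, Nat.cast_one]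
          ring
        refine squeeze_zero_norm' ?_ h1
        filter_upwards [eventually_ge_atTop K] with k hk
        rw [hg]
        simp only [not_lt.2 hk, if_false]
        rw [hpt2 k hk, norm_mul, Real.norm_eq_abs, abs_sgn, one_mul, Real.norm_eq_abs,
          abs_of_pos (by positivity)]
      let G : ZeroAtInftyContinuousMap ℕ ℝ :=
        { toFun := g
          continuous_toFun := continuous_of_discreteTopology
          zero_at_infty' := by
            rw [cocompact_eq_cofinite, Nat.cofinite_eq_atTop]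
            exact hgt }
      have hGk : ∀ k, G k = g k := fun k => rfl
      have hGy : dist G y0 ≤ s / 2 := by
        rw [← ZeroAtInftyContinuousMap.dist_toBCF_eq_dist]
        refine (BoundedContinuousFunction.dist_le (by positivity)).2 fun k => ?_
        show dist (g k) (y0 k) ≤ s / 2
        rw [Real.dist_eq]
        by_cases hk : k < K
        · have h1 : g k = q k := by
            rw [hg]
            simp only [hk, if_true]
            exact hpt1 k hk
          rw [h1]
          linarith [hq k]
        · have hk' : K ≤ k := not_lt.1 hk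
          have h1 : |g k| ≤ s / 4 := by
            rw [hg]
            simp only [hk, if_false]
            rw [hpt2 k hk', abs_mul, abs_sgn, one_mul, abs_of_pos (by positivity)]
            have h2 : 1 / ((k : ℝ) + 2) ≤ 1 / ((K : ℝ) + 1) := by
              apply one_div_le_one_div_of_le (by positivity)
              have : (K : ℝ) ≤ k := by exact_mod_cast hk'
              linarith
            linarith
          have h2 := hK1 k hk'
          calc |g k - y0 k| ≤ |g k| + |y0 k| := abs_sub _ _
            _ ≤ s / 2 := by linarith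
      have hGcl : G ∈ closure (Y n) :=
        hsub' (Metric.mem_ball.2 (lt_of_le_of_lt hGy (by linarith)))
      -- the tail part
      obtain ⟨u, hu⟩ : ∃ u : ℕ → ℝ, u = fun k => if k < K then 0 else pt l k * w k := ⟨_, rfl⟩
      have hsplit : ∀ k, pt l k = g k + u k := by
        intro k
        rw [hg, hu]
        by_cases hk : k < K
        · simp [hk]
        · simp only [hk, if_false]
          rw [← one_sub_w]
          ring
      have hu0 : ∀ k < K, u k = 0 := by
        intro k hk
        rw [hu]
        simp [hk]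
      have huw : ∀ k, |u k| ≤ w k := by
        intro k
        by_cases hk : k < K
        · rw [hu0 k hk, abs_zero]
          exact (w_pos k).le
        · rw [hu]
          simp only [hk, if_false]
          rw [hpt2 k (not_lt.1 hk), abs_mul, abs_sgn, one_mul, abs_of_pos (w_pos k)]
      -- the point of F
      have hzb : ∃ C : ℝ, ∀ k, |pt l k| ≤ C := pt_bounded l
      have hzV : (⟨place φ (pt l), mk _ hzb⟩ : VarEll p) ∈ V := hFV ⟨l, rfl⟩
      obtain ⟨n1, hn1⟩ := open_ball hV hzV
      obtain ⟨y, hyY, hyG⟩ := Metric.mem_closure_iff.1 hGcl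
        (min (1 / 2) (1 / (4 * ((n1 : ℝ) + 1)))) (by positivity)
      have hvb : ∃ C : ℝ, ∀ k, |y k + u k| ≤ C := by
        refine ⟨‖y‖ + 1, fun k => ?_⟩
        refine (abs_add_le _ _).trans (add_le_add (habs y k) ?_)
        exact (huw k).trans (w_lt_one k).le
      refine ⟨⟨place φ (fun k => y k + u k), mk _ hvb⟩, ?_, ?_⟩
      · apply hyY.2
        show modular p (fun j => place φ (fun k => y k + u k) j - place φ y j) < _
        rw [place_sub hφ]
        have : (fun k => y k + u k - y k) = u := by
          funext k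
          ring
        rw [this]
        refine lt_of_le_of_lt (modular_tail hp hφ hw hu0 huw) ?_
        exact (ENNReal.ofReal_lt_ofReal_iff (by positivity)).2 hK3
      · apply hn1
        show modular p (fun j => place φ (fun k => y k + u k) j - place φ (pt l) j) < _
        rw [place_sub hφ]
        have h1 : ∀ k, |y k + u k - pt l k| ≤ dist G y := by
          intro k
          rw [hsplit k, dist_comm]
          have : y k + u k - (g k + u k) = y k - G k := by
            rw [hGk]
            ring
          rw [this]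
          exact hdist y G k
        refine lt_of_le_of_lt (modular_small hp hφ hw (r := dist G y) ?_ h1) ?_
        · exact (hyG.le.trans (min_le_left _ _))
        · apply (ENNReal.ofReal_lt_ofReal_iff (by positivity)).2
          have h2 : dist G y < 1 / (4 * ((n1 : ℝ) + 1)) := lt_of_lt_of_le hyG (min_le_right _ _)
          calc 2 * dist G y < 2 * (1 / (4 * ((n1 : ℝ) + 1))) := by linarith
            _ ≤ 1 / ((n1 : ℝ) + 1) := by
              have : (0 : ℝ) ≤ n1 := Nat.cast_nonneg _
              rw [mul_one_div, div_le_div_iff₀ (by positivity) (by positivity)]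
              linarith

end Pool.Agent.Results.MP_aae45c_an.ModularNotRegular
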